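import Mathlib

set_option autoImplicit false

/-! The Bernoulli measure on `D → ZMod 2`: invariance under permutations, almost sure freeness. -/

namespace Pool.Agent.H84R8

open MeasureTheory Topology

section

variable {D : Type} [Countable D]

instance instBorelZ : BorelSpace (ZMod 2) := ⟨by
  have : borel (ZMod 2) = ⊤ := borel_eq_top_of_discrete
  rw [this]; rfl⟩

/-- the Bernoulli (Haar) measure -/
noncomputable def bern (D : Type) [Countable D] : Measure (D → ZMod 2) :=
  Measure.addHaarMeasure ⊤

instance : (bern D).IsAddHaarMeasure := by unfold bern; infer_instance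

instance : IsProbabilityMeasure (bern D) := ⟨by
  unfold bern
  exact Measure.addHaarMeasure_self (K₀ := (⊤ : TopologicalSpace.PositiveCompacts (D → ZMod 2)))⟩

/-- permuting coordinates -/
def permE (σ : D ≃ D) : (D → ZMod 2) ≃+ (D → ZMod 2) where
  toFun ε := fun d => ε (σ d)
  invFun ε := fun d => ε (σ.symm d)
  left_inv ε := by funext d; simp
  right_inv ε := by funext d; simp
  map_add' ε ε' := rfl

theorem bern_mp (σ : D ≃ D) :
    MeasurePreserving (fun (ε : D → ZMod 2) (d : D) => ε (σ d)) (bern D) (bern D) := by
  have hc : Continuous (permE σ) := continuous_pi fun d => continuous_apply (σ d)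
  have hc' : Continuous (permE σ).symm := continuous_pi fun d => continuous_apply (σ.symm d)
  have h1 : (Measure.map (permE σ) (bern D)).IsAddHaarMeasure :=
    (permE σ).isAddHaarMeasure_map (bern D) hc hc'
  have h2 : IsProbabilityMeasure (Measure.map (permE σ) (bern D)) :=
    Measure.isProbabilityMeasure_map hc.measurable.aemeasurable
  refine ⟨hc.measurable, ?_⟩
  change Measure.map (permE σ) (bern D) = bern D
  exact Measure.isAddHaarMeasure_eq_of_isProbabilityMeasure _ _

theorem bern_null (σ : D ≃ D) (d0 : D) (hinj : Function.Injective fun n : ℕ => σ^[n] d0) :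
    bern D {ε : D → ZMod 2 | ∀ d, ε (σ d) = ε d} = 0 := by
  classical
  set K : Set (D → ZMod 2) := {ε | ∀ d, ε (σ d) = ε d} with hK
  have hKc : IsClosed K := by
    rw [hK, Set.ofPred_forall]
    exact isClosed_iInter fun d => isClosed_eq (continuous_apply _) (continuous_apply _)
  let a : ℕ → D → ZMod 2 := fun n => Pi.single (σ^[n] d0) 1
  let S : ℕ → Set (D → ZMod 2) := fun n => (fun ε => -a n + ε) ⁻¹' K
  have hS : ∀ n, bern D (S n) = bern D K := fun n => measure_preimage_add _ _ _
  have hSm : ∀ n, MeasurableSet (S n) := fun n =>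
    (hKc.preimage (continuous_const.add continuous_id)).measurableSet
  have key : ∀ i j, i < j → Disjoint (S i) (S j) := by
    intro i j hij
    rw [Set.disjoint_left]
    intro ε h1 h2
    have e1 := h1 (σ^[j] d0)
    have e2 := h2 (σ^[j] d0)
    simp only [Pi.add_apply, Pi.neg_apply] at e1 e2
    have hs : σ (σ^[j] d0) = σ^[j + 1] d0 := by rw [Function.iterate_succ_apply']
    have n1 : σ^[j + 1] d0 ≠ σ^[i] d0 := fun h => by have := hinj h; omega
    have n2 : σ^[j + 1] d0 ≠ σ^[j] d0 := fun h => by have := hinj h; omega
    have n3 : σ^[j] d0 ≠ σ^[i] d0 := fun h => by have := hinj h; omega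
    have v1 : a i (σ (σ^[j] d0)) = 0 := by
      simp only [a]; rw [hs]; exact Pi.single_eq_of_ne n1 _
    have v2 : a j (σ (σ^[j] d0)) = 0 := by
      simp only [a]; rw [hs]; exact Pi.single_eq_of_ne n2 _
    have v3 : a i (σ^[j] d0) = 0 := by
      simp only [a]; exact Pi.single_eq_of_ne n3 _
    have v4 : a j (σ^[j] d0) = 1 := by
      simp only [a]; exact Pi.single_eq_same _ _
    rw [v1, v3] at e1
    rw [v2, v4] at e2
    rw [e1] at e2
    have : (1 : ZMod 2) = 0 := by
      have h3 : -(0 : ZMod 2) + ε (σ^[j] d0) = -1 + ε (σ^[j] d0) := e2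
      have h4 := add_right_cancel h3
      simpa using h4.symm
    exact one_ne_zero this
  have hd : Pairwise (Function.onFun Disjoint S) := by
    intro i j hij
    rcases lt_or_gt_of_ne hij with h | h
    · exact key i j h
    · exact (key j i h).symm
  by_contra hne
  have h1 := measure_iUnion (μ := bern D) hd hSm
  simp only [hS] at h1
  rw [ENNReal.tsum_const_eq_top_of_ne_zero hne] at h1
  exact measure_ne_top _ _ h1

end

end Pool.Agent.H84R8
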