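import Mathlib
import Pool.Agent.H476R3.ThW

set_option autoImplicit false

/-! Bump elements of Thompson's group `F`. -/

namespace Pool.Agent.H84R8

open Pool.Agent.H476R3.ThF

/-- formula -/
noncomputable def uF (p w x : ℝ) : ℝ := max x (min (2 * x - p) (x / 2 + (p + 3 * w) / 2))
/-- formula for the inverse -/
noncomputable def uG (p w x : ℝ) : ℝ := min x (max ((x + p) / 2) (2 * x - (p + 3 * w)))

/-- the bump element -/
noncomputable def bump (p w : ℝ) (hp : 0 ≤ p) (hw : 0 < w) (h1 : p + 3 * w ≤ 1) : UI ≃o UI :=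
  mkIso (uF p w) (uG p w)
  (by
    rintro x ⟨h0, h1⟩
    unfold uF
    constructor
    · exact le_max_of_le_left h0
    · refine max_le h1 ((min_le_right _ _).trans (by linarith)))
  (by
    rintro x ⟨h0, h1⟩
    unfold uG
    constructor
    · exact le_min h0 (le_max_of_le_left (by linarith))
    · exact (min_le_left _ _).trans h1)
  (by
    intro x y h
    unfold uF
    exact max_le_max h (min_le_min (by linarith) (by linarith)))
  (by
    intro x y h
    unfold uG
    exact min_le_min h (max_le_max (by linarith) (by linarith)))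
  (by
    rintro x ⟨h0, h1⟩
    unfold uF uG
    simp only [min_def, max_def]
    split_ifs <;> linarith)
  (by
    rintro x ⟨h0, h1⟩
    unfold uF uG
    simp only [min_def, max_def]
    split_ifs <;> linarith)

theorem bump_apply (p w : ℝ) (hp : 0 ≤ p) (hw : 0 < w) (h1 : p + 3 * w ≤ 1) (x : UI) :
    (bump p w hp hw h1 x : ℝ) = uF p w x := rfl

section
variable {p w x : ℝ} (hw : 0 < w)
include hw

theorem uF_1 (h : x ≤ p) : uF p w x = x := by
  unfold uF
  rw [max_eq_left]
  exact (min_le_left _ _).trans (by linarith)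
theorem uF_2 (h : p ≤ x) (h' : x ≤ p + w) : uF p w x = 2 * x - p := by
  unfold uF
  rw [max_eq_right, min_eq_left]
  · linarith
  · exact le_min (by linarith) (by linarith)
theorem uF_3 (h : p + w ≤ x) (h' : x ≤ p + 3 * w) : uF p w x = x / 2 + (p + 3 * w) / 2 := by
  unfold uF
  rw [max_eq_right, min_eq_right]
  · linarith
  · exact le_min (by linarith) (by linarith)
theorem uF_4 (h : p + 3 * w ≤ x) : uF p w x = x := by
  unfold uF
  rw [max_eq_left]
  exact (min_le_right _ _).trans (by linarith)

end

theorem bump_isPL (p w : ℝ) (hp : 0 ≤ p) (hw : 0 < w) (h1 : p + 3 * w ≤ 1) (dp : Dyadic p)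
    (dw : Dyadic w) : IsPL (bump p w hp hw h1) := by
  refine ⟨{p, p + w, p + 3 * w}, ?_, ?_⟩
  · intro b hb
    simp only [Finset.mem_insert, Finset.mem_singleton] at hb
    rcases hb with rfl | rfl | rfl
    · exact dp
    · exact dp.add dw
    · have : p + 3 * w = p + (w + (w + w)) := by ring
      rw [this]
      exact dp.add (dw.add (dw.add dw))
  · intro c d hcd h
    have hcd' : (c : ℝ) < d := hcd
    have h8 := h p (by simp)
    have h4 := h (p + w) (by simp)
    have h2 := h (p + 3 * w) (by simp)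
    simp only [bump_apply]
    rcases le_or_gt (d : ℝ) p with hd | hd
    · refine ⟨0, fun x hx hx' => ?_⟩
      have hx1 : (c : ℝ) ≤ x := hx
      have hx2 : (x : ℝ) ≤ d := hx'
      rw [uF_1 hw (by linarith), uF_1 hw (by linarith)]
      norm_num
    · have hc : p ≤ (c : ℝ) := by
        by_contra hc
        exact h8 ⟨not_le.1 hc, hd⟩
      rcases le_or_gt (d : ℝ) (p + w) with hd4 | hd4
      · refine ⟨1, fun x hx hx' => ?_⟩
        have hx1 : (c : ℝ) ≤ x := hx
        have hx2 : (x : ℝ) ≤ d := hx'
        rw [uF_2 hw (by linarith) (by linarith), uF_2 hw (by linarith) (by linarith)]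
        norm_num; ring
      · have hc4 : p + w ≤ (c : ℝ) := by
          by_contra hc
          exact h4 ⟨not_le.1 hc, hd4⟩
        rcases le_or_gt (d : ℝ) (p + 3 * w) with hd' | hd'
        · refine ⟨-1, fun x hx hx' => ?_⟩
          have hx1 : (c : ℝ) ≤ x := hx
          have hx2 : (x : ℝ) ≤ d := hx'
          rw [uF_3 hw (by linarith) (by linarith), uF_3 hw (by linarith) (by linarith)]
          norm_num; ring
        · have hc' : p + 3 * w ≤ (c : ℝ) := by
            by_contra hc'
            exact h2 ⟨not_le.1 hc', hd'⟩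
          refine ⟨0, fun x hx hx' => ?_⟩
          have hx1 : (c : ℝ) ≤ x := hx
          rw [uF_4 hw (by linarith), uF_4 hw (by linarith)]
          norm_num

/-- dyadic points are dense, with room -/
theorem exists_dyadic {a b : ℝ} (ha : 0 ≤ a) (hab : a < b) (hb : b ≤ 1) :
    ∃ p w : ℝ, a < p ∧ p < b ∧ 0 < w ∧ p + 3 * w ≤ 1 ∧ Dyadic p ∧ Dyadic w := by
  obtain ⟨k, hk⟩ := exists_pow_lt_of_lt_one (show (0 : ℝ) < (b - a) / 8 by linarith)
    (show (1 / 2 : ℝ) < 1 by norm_num)
  set w : ℝ := (1 / 2) ^ k with hw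
  have hw0 : 0 < w := by positivity
  have hwd : Dyadic w := ⟨1, k, by rw [hw]; simp [one_div]⟩
  let m : ℤ := ⌊a / w⌋ + 1
  have hm1 : a / w < m := by
    have := Int.lt_floor_add_one (a / w)
    push_cast [m]; exact this
  have hm2 : (m : ℝ) ≤ a / w + 1 := by
    have := Int.floor_le (a / w)
    push_cast [m]; linarith
  refine ⟨m * w, w, ?_, ?_, hw0, ?_, ⟨m, k, by rw [hw]; simp [one_div, div_eq_mul_inv]⟩, hwd⟩
  · rwa [div_lt_iff₀ hw0] at hm1
  · have : (m : ℝ) * w ≤ (a / w + 1) * w := mul_le_mul_of_nonneg_right hm2 hw0.le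
    have e : (a / w + 1) * w = a + w := by field_simp
    rw [e] at this
    linarith
  · have : (m : ℝ) * w ≤ (a / w + 1) * w := mul_le_mul_of_nonneg_right hm2 hw0.le
    have e : (a / w + 1) * w = a + w := by field_simp
    rw [e] at this
    linarith

end Pool.Agent.H84R8
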