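import Mathlib
import Pool.Agent.H476R3.ThF

set_option autoImplicit false

/-! First moved points of elements of `F`. -/

namespace Pool.Agent.H84R8

open Pool.Agent.H476R3.ThF

/-- first moved point `x`, moved up -/
def Up (f : UI ≃o UI) (x : UI) : Prop :=
  (∀ y, y ≤ x → f y = y) ∧ ∃ δ, x < δ ∧ ∀ y, x < y → y ≤ δ → y < f y

/-- first moved point `x`, moved down -/
def Dn (f : UI ≃o UI) (x : UI) : Prop :=
  (∀ y, y ≤ x → f y = y) ∧ ∃ δ, x < δ ∧ ∀ y, x < y → y ≤ δ → f y < y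

theorem ud_not_lt {f : UI ≃o UI} {x x' : UI} (h : Up f x ∨ Dn f x) (h' : Up f x' ∨ Dn f x') :
    ¬ x < x' := by
  intro hlt
  have hfix : ∀ y, y ≤ x' → f y = y := h'.elim (fun h => h.1) (fun h => h.1)
  rcases h with ⟨_, δ, hδ, hm⟩ | ⟨_, δ, hδ, hm⟩
  · have := hm (min δ x') (lt_min hδ hlt) (min_le_left _ _)
    rw [hfix _ (min_le_right _ _)] at this
    exact lt_irrefl _ this
  · have := hm (min δ x') (lt_min hδ hlt) (min_le_left _ _)
    rw [hfix _ (min_le_right _ _)] at this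
    exact lt_irrefl _ this

theorem ud_unique {f : UI ≃o UI} {x x' : UI} (h : Up f x ∨ Dn f x) (h' : Up f x' ∨ Dn f x') :
    x = x' :=
  le_antisymm (not_lt.1 (ud_not_lt h' h)) (not_lt.1 (ud_not_lt h h'))

theorem ud_excl {f : UI ≃o UI} {x : UI} (h : Up f x) (h' : Dn f x) : False := by
  obtain ⟨_, δ, hδ, hm⟩ := h
  obtain ⟨_, δ', hδ', hm'⟩ := h'
  have a := hm (min δ δ') (lt_min hδ hδ') (min_le_left _ _)
  have b := hm' (min δ δ') (lt_min hδ hδ') (min_le_right _ _)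
  exact lt_asymm a b

theorem Up.inv {f : UI ≃o UI} {x : UI} (h : Up f x) : Dn f⁻¹ x := by
  obtain ⟨h1, δ, hδ, hm⟩ := h
  refine ⟨fun y hy => ?_, δ, hδ, fun y hy hy' => ?_⟩
  · change f.symm y = y
    rw [OrderIso.symm_apply_eq, h1 y hy]
  · change f.symm y < y
    rw [OrderIso.symm_apply_lt]
    exact hm y hy hy'

theorem Dn.inv {f : UI ≃o UI} {x : UI} (h : Dn f x) : Up f⁻¹ x := by
  obtain ⟨h1, δ, hδ, hm⟩ := h
  refine ⟨fun y hy => ?_, δ, hδ, fun y hy hy' => ?_⟩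
  · change f.symm y = y
    rw [OrderIso.symm_apply_eq, h1 y hy]
  · change y < f.symm y
    rw [OrderIso.lt_symm_apply]
    exact hm y hy hy'

theorem Up.conj {f : UI ≃o UI} {x : UI} (h : Up f x) (g : UI ≃o UI) : Up (g * f * g⁻¹) (g x) := by
  obtain ⟨h1, δ, hδ, hm⟩ := h
  refine ⟨fun y hy => ?_, g δ, g.strictMono hδ, fun y hy hy' => ?_⟩
  · change g (f (g.symm y)) = y
    rw [h1 (g.symm y) (g.symm_apply_le.2 hy), g.apply_symm_apply]
  · change y < g (f (g.symm y))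
    have := hm (g.symm y) (g.lt_symm_apply.2 hy) (g.symm_apply_le.2 hy')
    rwa [g.symm_apply_lt] at this

theorem Dn.conj {f : UI ≃o UI} {x : UI} (h : Dn f x) (g : UI ≃o UI) : Dn (g * f * g⁻¹) (g x) := by
  obtain ⟨h1, δ, hδ, hm⟩ := h
  refine ⟨fun y hy => ?_, g δ, g.strictMono hδ, fun y hy hy' => ?_⟩
  · change g (f (g.symm y)) = y
    rw [h1 (g.symm y) (g.symm_apply_le.2 hy), g.apply_symm_apply]
  · change g (f (g.symm y)) < y
    have := hm (g.symm y) (g.lt_symm_apply.2 hy) (g.symm_apply_le.2 hy')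
    rwa [g.lt_symm_apply] at this

theorem mul_ap (f g : UI ≃o UI) (y : UI) : (f * g) y = f (g y) := rfl

/-- fixing the initial segment -/
theorem fix_mul {f g : UI ≃o UI} {x : UI} (hf : ∀ y, y ≤ x → f y = y)
    (hg : ∀ y, y ≤ x → g y = y) : ∀ y, y ≤ x → (f * g) y = y := by
  intro y hy
  rw [mul_ap, hg y hy, hf y hy]

/-- right factor fixes more -/
theorem Up.mul_fix {f g : UI ≃o UI} {x : UI} (h : Up f x) {z : UI} (hz : x < z)
    (hg : ∀ y, y ≤ z → g y = y) : Up (f * g) x := by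
  obtain ⟨h1, δ, hδ, hm⟩ := h
  refine ⟨fix_mul h1 fun y hy => hg y (hy.trans hz.le), min δ z, lt_min hδ hz, fun y hy hy' => ?_⟩
  rw [mul_ap, hg y (hy'.trans (min_le_right _ _))]
  exact hm y hy (hy'.trans (min_le_left _ _))

theorem Dn.mul_fix {f g : UI ≃o UI} {x : UI} (h : Dn f x) {z : UI} (hz : x < z)
    (hg : ∀ y, y ≤ z → g y = y) : Dn (f * g) x := by
  obtain ⟨h1, δ, hδ, hm⟩ := h
  refine ⟨fix_mul h1 fun y hy => hg y (hy.trans hz.le), min δ z, lt_min hδ hz, fun y hy hy' => ?_⟩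
  rw [mul_ap, hg y (hy'.trans (min_le_right _ _))]
  exact hm y hy (hy'.trans (min_le_left _ _))

/-- left factor fixes more -/
theorem Up.fix_mul' {f g : UI ≃o UI} {x : UI} (h : Up g x) {z : UI} (hz : x < z)
    (hf : ∀ y, y ≤ z → f y = y) : Up (f * g) x := by
  obtain ⟨h1, δ, hδ, hm⟩ := h
  refine ⟨fix_mul (fun y hy => hf y (hy.trans hz.le)) h1, min δ z, lt_min hδ hz,
    fun y hy hy' => ?_⟩
  rw [mul_ap]
  have := f.strictMono (hm y hy (hy'.trans (min_le_left _ _)))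
  rwa [hf y (hy'.trans (min_le_right _ _))] at this

theorem Dn.fix_mul' {f g : UI ≃o UI} {x : UI} (h : Dn g x) {z : UI} (hz : x < z)
    (hf : ∀ y, y ≤ z → f y = y) : Dn (f * g) x := by
  obtain ⟨h1, δ, hδ, hm⟩ := h
  refine ⟨fix_mul (fun y hy => hf y (hy.trans hz.le)) h1, min δ z, lt_min hδ hz,
    fun y hy hy' => ?_⟩
  rw [mul_ap]
  have := f.strictMono (hm y hy (hy'.trans (min_le_left _ _)))
  rwa [hf y (hy'.trans (min_le_right _ _))] at this

theorem Up.mul {f g : UI ≃o UI} {x : UI} (h : Up f x) (h' : Up g x) : Up (f * g) x := by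
  obtain ⟨h1, δ, hδ, hm⟩ := h
  obtain ⟨h1', δ', hδ', hm'⟩ := h'
  refine ⟨fix_mul h1 h1', min δ δ', lt_min hδ hδ', fun y hy hy' => ?_⟩
  rw [mul_ap]
  exact (hm y hy (hy'.trans (min_le_left _ _))).trans
    (f.strictMono (hm' y hy (hy'.trans (min_le_right _ _))))

theorem Dn.mul {f g : UI ≃o UI} {x : UI} (h : Dn f x) (h' : Dn g x) : Dn (f * g) x := by
  obtain ⟨h1, δ, hδ, hm⟩ := h
  obtain ⟨h1', δ', hδ', hm'⟩ := h'
  refine ⟨fix_mul h1 h1', min δ δ', lt_min hδ hδ', fun y hy hy' => ?_⟩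
  rw [mul_ap]
  exact (f.strictMono (hm' y hy (hy'.trans (min_le_right _ _)))).trans
    (hm y hy (hy'.trans (min_le_left _ _)))

/-- combinatorial form of `IsPL` -/
theorem IsPL.fin {f : UI ≃o UI} (hf : IsPL f) : ∃ B : Finset UI, ⟨0, by simp⟩ ∈ B ∧
    ⟨1, by simp⟩ ∈ B ∧ (∀ b ∈ B, Dyadic (b : ℝ)) ∧
    ∀ c d : UI, c < d → (∀ b ∈ B, ¬ (c < b ∧ b < d)) →
      ∃ k : ℤ, ∀ x : UI, c ≤ x → x ≤ d → (f x : ℝ) = f c + 2 ^ k * ((x : ℝ) - c) := by
  classical
  obtain ⟨B, hB, h⟩ := hf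
  let e : ℝ → UI := fun b => if hb : b ∈ Set.Icc (0 : ℝ) 1 then ⟨b, hb⟩ else ⟨0, by simp⟩
  refine ⟨insert ⟨0, by simp⟩ (insert ⟨1, by simp⟩ (B.image e)), by simp, by simp, ?_, ?_⟩
  · intro b hb
    simp only [Finset.mem_insert, Finset.mem_image] at hb
    rcases hb with rfl | rfl | ⟨b', hb', rfl⟩
    · exact dyadic_zero
    · exact dyadic_one
    · simp only [e]
      split_ifs with h0
      · exact hB _ hb'
      · exact dyadic_zero
  · intro c d hcd hbr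
    apply h c d hcd
    intro b hb ⟨h1, h2⟩
    have hb' : b ∈ Set.Icc (0 : ℝ) 1 := ⟨c.2.1.trans h1.le, h2.le.trans d.2.2⟩
    refine hbr (e b) ?_ ?_
    · simp only [Finset.mem_insert, Finset.mem_image]
      exact Or.inr (Or.inr ⟨b, hb, rfl⟩)
    · simp only [e, dif_pos hb']
      exact ⟨h1, h2⟩

/-- the next element of a finite set -/
theorem exists_next (B : Finset UI) (h1 : ⟨1, by simp⟩ ∈ B) (x : UI) (hx : (x : ℝ) < 1) :
    ∃ d ∈ B, x < d ∧ ∀ b ∈ B, ¬ (x < b ∧ b < d) := by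
  classical
  have hne : (B.filter fun b => x < b).Nonempty := ⟨⟨1, by simp⟩, by
    rw [Finset.mem_filter]; exact ⟨h1, hx⟩⟩
  refine ⟨(B.filter fun b => x < b).min' hne, ?_, ?_, ?_⟩
  · exact (Finset.mem_filter.1 (Finset.min'_mem _ hne)).1
  · exact (Finset.mem_filter.1 (Finset.min'_mem _ hne)).2
  · intro b hb ⟨h2, h3⟩
    have := Finset.min'_le (B.filter fun b => x < b) b (Finset.mem_filter.2 ⟨hb, h2⟩)
    exact absurd h3 (not_lt.2 this)

/-- the last element of a finite set below `x` -/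
theorem exists_prev (B : Finset UI) (h0 : ⟨0, by simp⟩ ∈ B) (x : UI) :
    ∃ c ∈ B, c ≤ x ∧ ∀ b ∈ B, ¬ (c < b ∧ b < x) := by
  classical
  have hne : (B.filter fun b => b ≤ x).Nonempty := ⟨⟨0, by simp⟩, by
    rw [Finset.mem_filter]; exact ⟨h0, x.2.1⟩⟩
  refine ⟨(B.filter fun b => b ≤ x).max' hne, ?_, ?_, ?_⟩
  · exact (Finset.mem_filter.1 (Finset.max'_mem _ hne)).1
  · exact (Finset.mem_filter.1 (Finset.max'_mem _ hne)).2
  · intro b hb ⟨h2, h3⟩
    have := Finset.le_max' (B.filter fun b => b ≤ x) b (Finset.mem_filter.2 ⟨hb, h3.le⟩)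
    exact absurd h2 (not_lt.2 this)

theorem exists_first {f : UI ≃o UI} (hf : IsPL f) (hne : f ≠ 1) : ∃ x : UI, Up f x ∨ Dn f x := by
  classical
  obtain ⟨B, h0, h1, hd, hB⟩ := IsPL.fin hf
  let S := B.filter fun b => ∀ y, y ≤ b → f y = y
  have hS : S.Nonempty := ⟨⟨0, by simp⟩, by
    rw [Finset.mem_filter]
    refine ⟨h0, fun y hy => ?_⟩
    have : y = ⟨0, by simp⟩ := le_antisymm hy y.2.1
    rw [this]
    exact map_zero' f⟩
  set x := S.max' hS with hx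
  have hxS : x ∈ S := Finset.max'_mem S hS
  have hfix : ∀ y, y ≤ x → f y = y := (Finset.mem_filter.1 hxS).2
  have hx1 : (x : ℝ) < 1 := by
    by_contra hge
    apply hne
    ext y
    have : f y = y := hfix y (y.2.2.trans (not_lt.1 hge))
    rw [this]; rfl
  obtain ⟨d, hdB, hxd, hadj⟩ := exists_next B h1 x hx1
  obtain ⟨k, hk⟩ := hB x d hxd hadj
  have hk' : ∀ y : UI, x ≤ y → y ≤ d → (f y : ℝ) = x + 2 ^ k * ((y : ℝ) - x) := by
    intro y hy hy'
    rw [hk y hy hy', hfix x le_rfl]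
  have hk0 : k ≠ 0 := by
    intro hk0
    have hdS : d ∈ S := by
      rw [Finset.mem_filter]
      refine ⟨hdB, fun y hy => ?_⟩
      rcases le_total y x with hyx | hyx
      · exact hfix y hyx
      · apply Subtype.ext
        rw [hk' y hyx hy, hk0]; simp
    have := Finset.le_max' S d hdS
    exact absurd hxd (not_lt.2 this)
  refine ⟨x, ?_⟩
  rcases lt_or_gt_of_ne hk0 with hneg | hpos
  · right
    refine ⟨hfix, d, hxd, fun y hy hy' => ?_⟩
    have h2 : (2 : ℝ) ^ k < 1 := zpow_lt_one_of_neg₀ (by norm_num) hneg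
    have hy0 : (0 : ℝ) < (y : ℝ) - x := sub_pos.2 hy
    have h3 : (f y : ℝ) < y := by
      rw [hk' y hy.le hy']
      nlinarith
    exact h3
  · left
    refine ⟨hfix, d, hxd, fun y hy hy' => ?_⟩
    have h2 : 1 < (2 : ℝ) ^ k := one_lt_zpow₀ (by norm_num) hpos
    have hy0 : (0 : ℝ) < (y : ℝ) - x := sub_pos.2 hy
    have h3 : (y : ℝ) < f y := by
      rw [hk' y hy.le hy']
      nlinarith
    exact h3

/-- dyadic points -/
abbrev DD : Type := {x : UI // Dyadic (x : ℝ)}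

instance : Countable DD := by
  have h : ∀ x : DD, ∃ p : ℤ × ℕ, ((x : UI) : ℝ) = p.1 / 2 ^ p.2 := by
    rintro ⟨x, m, k, h⟩; exact ⟨(m, k), h⟩
  choose c hc using h
  refine Function.Injective.countable (f := c) fun x y hxy => ?_
  apply Subtype.ext
  apply Subtype.ext
  rw [hc x, hc y, hxy]

theorem countable_F : Countable ThompsonF := by
  classical
  have hB : ∀ f : ThompsonF, ∃ B : Finset DD, (∀ x : DD, ((x : UI) : ℝ) = 0 → x ∈ B) ∧
      (∀ x : DD, ((x : UI) : ℝ) = 1 → x ∈ B) ∧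
      ∀ c d : UI, c < d → (∀ b ∈ B, ¬ (c < (b : UI) ∧ (b : UI) < d)) →
      ∃ k : ℤ, ∀ x : UI, c ≤ x → x ≤ d →
        ((f : UI ≃o UI) x : ℝ) = (f : UI ≃o UI) c + 2 ^ k * ((x : ℝ) - c) := by
    intro f
    obtain ⟨B, h0, h1, hd, h⟩ := IsPL.fin f.2
    refine ⟨B.subtype fun x : UI => Dyadic (x : ℝ), ?_, ?_, ?_⟩
    · intro x hx
      rw [Finset.mem_subtype]
      have : (x : UI) = ⟨0, by simp⟩ := Subtype.ext hx
      rw [this]; exact h0
    · intro x hx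
      rw [Finset.mem_subtype]
      have : (x : UI) = ⟨1, by simp⟩ := Subtype.ext hx
      rw [this]; exact h1
    · intro c d hcd hbr
      refine h c d hcd fun b hb => ?_
      exact hbr ⟨b, hd b hb⟩ (by rw [Finset.mem_subtype]; exact hb)
  choose B hB0 hB1 hBB using hB
  let ap : ThompsonF → DD → DD := fun f b => ⟨(f : UI ≃o UI) b, IsPL.map_dyadic f.2 b b.2⟩
  let code : ThompsonF → Finset (DD × DD) := fun f => (B f).image fun b => (b, ap f b)
  refine Function.Injective.countable (f := code) fun f g hfg => ?_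
  have key : ∀ f g : ThompsonF, code f = code g → ∀ b ∈ B f, b ∈ B g ∧
      (f : UI ≃o UI) b = (g : UI ≃o UI) b := by
    intro f g hfg b hb
    have h1 : (b, ap f b) ∈ code f := Finset.mem_image_of_mem _ hb
    rw [hfg] at h1
    obtain ⟨b', hb', he⟩ := Finset.mem_image.1 h1
    have e1 : b' = b := congrArg Prod.fst he
    have e2 : ap g b' = ap f b := congrArg Prod.snd he
    subst e1
    exact ⟨hb', (congrArg Subtype.val e2).symm⟩
  apply Subtype.ext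
  apply DFunLike.ext
  intro x
  let BU : Finset UI := (B f).image Subtype.val
  have hBU : ∀ y : UI, y ∈ BU ↔ ∃ b ∈ B f, (b : UI) = y := fun y => Finset.mem_image
  have m0 : (⟨0, by simp⟩ : UI) ∈ BU := (hBU _).2 ⟨⟨⟨0, by simp⟩, dyadic_zero⟩, hB0 f _ rfl, rfl⟩
  have m1 : (⟨1, by simp⟩ : UI) ∈ BU := (hBU _).2 ⟨⟨⟨1, by simp⟩, dyadic_one⟩, hB1 f _ rfl, rfl⟩
  have hag : ∀ y ∈ BU, (f : UI ≃o UI) y = (g : UI ≃o UI) y := by
    intro y hy
    obtain ⟨b, hb, rfl⟩ := (hBU y).1 hy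
    exact (key f g hfg b hb).2
  by_cases hxB : x ∈ BU
  · exact hag x hxB
  obtain ⟨c, hc, hcx, hcadj⟩ := exists_prev BU m0 x
  have hx1 : (x : ℝ) < 1 := by
    refine lt_of_le_of_ne x.2.2 fun h => hxB ?_
    have : x = ⟨1, by simp⟩ := Subtype.ext h
    rw [this]; exact m1
  obtain ⟨d, hd, hxd, hdadj⟩ := exists_next BU m1 x hx1
  have hcx' : c < x := lt_of_le_of_ne hcx fun h => hxB (h ▸ hc)
  have hadj : ∀ b ∈ BU, ¬ (c < b ∧ b < d) := by
    intro b hb ⟨h1, h2⟩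
    rcases lt_trichotomy b x with h | h | h
    · exact hcadj b hb ⟨h1, h⟩
    · exact hxB (h ▸ hb)
    · exact hdadj b hb ⟨h, h2⟩
  have hcd : c < d := hcx'.trans hxd
  obtain ⟨k, hk⟩ := hBB f c d hcd fun b hb => hadj b ((hBU _).2 ⟨b, hb, rfl⟩)
  obtain ⟨l, hl⟩ := hBB g c d hcd fun b hb =>
    hadj b ((hBU _).2 ⟨b, (key g f hfg.symm b hb).1, rfl⟩)
  have e1 := hk d hcd.le le_rfl
  have e2 := hl d hcd.le le_rfl
  rw [← hag d hd, ← hag c hc] at e2
  have hpos : (0 : ℝ) < (d : ℝ) - c := sub_pos.2 hcd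
  have e3 : (2 : ℝ) ^ k = 2 ^ l := by
    have : (2 : ℝ) ^ k * ((d : ℝ) - c) = 2 ^ l * ((d : ℝ) - c) := by linarith
    exact mul_right_cancel₀ hpos.ne' this
  apply Subtype.ext
  rw [hk x hcx hxd.le, hl x hcx hxd.le, e3, hag c hc]

end Pool.Agent.H84R8
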