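import Mathlib

set_option autoImplicit false

/-!
A countable group with an essentially free probability measure preserving action whose orbit
relation is an increasing union of finite Borel equivalence relations has a finitely additive
invariant probability measure.
-/

namespace Pool.Agent.H84R8

open MeasureTheory Filter Topology

open scoped ENNReal Pointwise

/-- finitely additive left invariant probability measures on a group -/
structure IsInvMean {G : Type*} [Group G] (m : Set G → ℝ) : Prop where
  nonneg : ∀ A, 0 ≤ m A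
  univ : m Set.univ = 1
  union : ∀ A B, Disjoint A B → m (A ∪ B) = m A + m B
  inv : ∀ (h : G) (A : Set G), m ((fun a => h * a) '' A) = m A

open Classical in
/-- truth value -/
noncomputable def ind (p : Prop) : ℝ≥0∞ := if p then 1 else 0

theorem ind_pos {p : Prop} (h : p) : ind p = 1 := by unfold ind; rw [if_pos h]
theorem ind_neg {p : Prop} (h : ¬ p) : ind p = 0 := by unfold ind; rw [if_neg h]
theorem ind_congr {p q : Prop} (h : p ↔ q) : ind p = ind q := by rw [propext h]

section

variable {G X : Type*} [Group G] [Countable G] [MulAction G X] [MeasurableSpace X]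
  (R : ℕ → X → X → Prop)

/-- number of `g ∈ A` such that `g⁻¹ x` is in the class of `x` -/
noncomputable def cnt (n : ℕ) (A : Set G) (x : X) : ℝ≥0∞ :=
  ∑' g : G, ind (g ∈ A ∧ R n x (g⁻¹ • x))

/-- proportion of `A` -/
noncomputable def rat (n : ℕ) (A : Set G) (x : X) : ℝ≥0∞ :=
  cnt R n A x / cnt R n (Set.univ : Set G) x

theorem cnt_union (n : ℕ) (A B : Set G) (h : Disjoint A B) (x : X) :
    cnt R n (A ∪ B) x = cnt R n A x + cnt R n B x := by
  unfold cnt
  rw [← ENNReal.tsum_add]
  refine tsum_congr fun g => ?_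
  by_cases hR : R n x (g⁻¹ • x)
  · by_cases hA : g ∈ A
    · have hB : g ∉ B := fun hB => Set.disjoint_left.1 h hA hB
      rw [ind_pos ⟨Or.inl hA, hR⟩, ind_pos ⟨hA, hR⟩, ind_neg (fun h => hB h.1), add_zero]
    · by_cases hB : g ∈ B
      · have a1 : ind (g ∈ A ∪ B ∧ R n x (g⁻¹ • x)) = 1 := ind_pos ⟨Or.inr hB, hR⟩
        have a2 : ind (g ∈ A ∧ R n x (g⁻¹ • x)) = 0 := ind_neg fun h => hA h.1
        have a3 : ind (g ∈ B ∧ R n x (g⁻¹ • x)) = 1 := ind_pos ⟨hB, hR⟩
        rw [a1, a2, a3, zero_add]
      · rw [ind_neg (fun h => h.1.elim hA hB), ind_neg (fun h => hA h.1),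
          ind_neg (fun h => hB h.1), zero_add]
  · rw [ind_neg (fun h => hR h.2), ind_neg (fun h => hR h.2), ind_neg (fun h => hR h.2), zero_add]

theorem cnt_mono (n : ℕ) {A B : Set G} (h : A ⊆ B) (x : X) : cnt R n A x ≤ cnt R n B x := by
  unfold cnt
  refine ENNReal.tsum_le_tsum fun g => ?_
  by_cases hA : g ∈ A ∧ R n x (g⁻¹ • x)
  · rw [ind_pos hA, ind_pos ⟨h hA.1, hA.2⟩]
  · rw [ind_neg hA]; exact bot_le

theorem rat_le_one (n : ℕ) (A : Set G) (x : X) : rat R n A x ≤ 1 := by
  unfold rat
  exact (ENNReal.div_le_div_right (cnt_mono R n (Set.subset_univ A) x) _).trans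
    ENNReal.div_self_le_one

theorem rat_union (n : ℕ) (A B : Set G) (h : Disjoint A B) (x : X) :
    rat R n (A ∪ B) x = rat R n A x + rat R n B x := by
  unfold rat
  rw [cnt_union R n A B h, ENNReal.add_div]

theorem cnt_meas (hR : ∀ n, MeasurableSet {p : X × X | R n p.1 p.2})
    (hact : ∀ g : G, Measurable fun x : X => g • x) (n : ℕ) (A : Set G) :
    Measurable (cnt R n A) := by
  unfold cnt
  refine Measurable.tsum fun g => ?_
  unfold ind
  refine Measurable.ite ?_ measurable_const measurable_const
  by_cases hA : g ∈ A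
  · have : {x : X | g ∈ A ∧ R n x (g⁻¹ • x)} =
        (fun x : X => (x, g⁻¹ • x)) ⁻¹' {p : X × X | R n p.1 p.2} := by
      ext x; simp [hA]
    rw [this]
    exact (measurable_id.prodMk (hact g⁻¹)) (hR n)
  · have : {x : X | g ∈ A ∧ R n x (g⁻¹ • x)} = ∅ := by
      ext x; simp [hA]
    rw [this]; exact MeasurableSet.empty

theorem rat_meas (hR : ∀ n, MeasurableSet {p : X × X | R n p.1 p.2})
    (hact : ∀ g : G, Measurable fun x : X => g • x) (n : ℕ) (A : Set G) :
    Measurable (rat R n A) :=
  (cnt_meas R hR hact n A).div (cnt_meas R hR hact n Set.univ)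

theorem cnt_shift (n : ℕ) (A : Set G) (x : X) (h : G)
    (hs : ∀ y, R n (h • x) y ↔ R n x y) :
    cnt R n ((fun a => h * a) '' A) (h • x) = cnt R n A x := by
  unfold cnt
  rw [← (Equiv.mulLeft h).tsum_eq]
  refine tsum_congr fun g => ?_
  have h1 : ((Equiv.mulLeft h) g ∈ (fun a => h * a) '' A) ↔ g ∈ A := by
    constructor
    · rintro ⟨a, ha, hag⟩
      have : a = g := mul_left_cancel (a := h) hag
      rwa [← this]
    · intro hg; exact ⟨g, hg, rfl⟩
  have h2 : ((Equiv.mulLeft h) g)⁻¹ • h • x = g⁻¹ • x := by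
    change (h * g)⁻¹ • h • x = g⁻¹ • x
    rw [smul_smul]
    congr 1
    group
  rw [h2]
  exact ind_congr (and_congr h1 (hs _))

theorem cnt_shift_univ (n : ℕ) (x : X) (h : G)
    (hs : ∀ y, R n (h • x) y ↔ R n x y) :
    cnt R n (Set.univ : Set G) (h • x) = cnt R n (Set.univ : Set G) x := by
  have := cnt_shift R n (Set.univ : Set G) x h hs
  rwa [Set.image_univ_of_surjective (fun b => ⟨h⁻¹ * b, by simp⟩)] at this

theorem exists_mean (μ : Measure X) [IsProbabilityMeasure μ]
    (hmp : ∀ g : G, MeasurePreserving (fun x : X => g • x) μ μ)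
    (hfree : ∀ᵐ x ∂μ, ∀ g : G, g ≠ 1 → g • x ≠ x)
    (hR : ∀ n, MeasurableSet {p : X × X | R n p.1 p.2})
    (hrefl : ∀ n x, R n x x) (hsymm : ∀ n x y, R n x y → R n y x)
    (htrans : ∀ n x y z, R n x y → R n y z → R n x z)
    (hmono : ∀ n x y, R n x y → R (n + 1) x y)
    (hfin : ∀ n x, {y | R n x y}.Finite)
    (hun : ∀ᵐ x ∂μ, ∀ g : G, ∃ n, R n x (g • x)) :
    ∃ m : Set G → ℝ, IsInvMean m := by
  have hact : ∀ g : G, Measurable fun x : X => g • x := fun g => (hmp g).measurable
  -- the integrals
  let I : ℕ → Set G → ℝ≥0∞ := fun n A => ∫⁻ x, rat R n A x ∂μ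
  have hI1 : ∀ n A, I n A ≤ 1 := by
    intro n A
    calc I n A ≤ ∫⁻ _, 1 ∂μ := lintegral_mono fun x => rat_le_one R n A x
      _ = 1 := by simp
  have hIu : ∀ n, I n Set.univ = 1 := by
    intro n
    have : (fun x => rat R n (Set.univ : Set G) x) =ᵐ[μ] fun _ => (1 : ℝ≥0∞) := by
      filter_upwards [hfree] with x hx
      unfold rat
      apply ENNReal.div_self
      · intro h0
        unfold cnt at h0
        rw [ENNReal.tsum_eq_zero] at h0
        have := h0 1
        rw [ind_pos ⟨Set.mem_univ _, by simpa using hrefl n x⟩] at this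
        exact one_ne_zero this
      · -- finite
        have hf : {g : G | R n x (g⁻¹ • x)}.Finite := by
          refine Set.Finite.of_finite_image ((hfin n x).subset ?_)
            (f := fun g : G => g⁻¹ • x) ?_
          · rintro _ ⟨g, hg, rfl⟩; exact hg
          · intro g _ g' _ hgg
            by_contra hne
            refine hx (g * g'⁻¹) (fun h => hne (mul_inv_eq_one.1 h)) ?_
            have hgg' : g⁻¹ • x = g'⁻¹ • x := hgg
            rw [mul_smul, ← hgg', smul_inv_smul]
        unfold cnt
        have hs : (∑' g : G, ind (g ∈ (Set.univ : Set G) ∧ R n x (g⁻¹ • x))) =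
            ∑ g ∈ hf.toFinset, 1 := by
          rw [tsum_eq_sum (s := hf.toFinset)]
          · refine Finset.sum_congr rfl fun g hg => ?_
            have : R n x (g⁻¹ • x) := by simpa using hg
            exact ind_pos ⟨Set.mem_univ _, this⟩
          · intro g hg
            have : ¬ R n x (g⁻¹ • x) := by simpa using hg
            exact ind_neg fun h => this h.2
        rw [hs]
        simp
    calc I n Set.univ = ∫⁻ _, 1 ∂μ := lintegral_congr_ae this
      _ = 1 := by simp
  have hIadd : ∀ n A B, Disjoint A B → I n (A ∪ B) = I n A + I n B := by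
    intro n A B hAB
    simp only [I]
    rw [← lintegral_add_left (rat_meas R hR hact n A)]
    exact lintegral_congr fun x => rat_union R n A B hAB x
  -- almost invariance
  let bad : ℕ → G → Set X := fun n h => {x | ¬ R n x (h • x)}
  have hbadm : ∀ n h, MeasurableSet (bad n h) := by
    intro n h
    have : bad n h = ((fun x : X => (x, h • x)) ⁻¹' {p : X × X | R n p.1 p.2})ᶜ := rfl
    rw [this]
    exact ((measurable_id.prodMk (hact h)) (hR n)).compl
  have hinv : ∀ n h A, I n ((fun a => h * a) '' A) ≤ I n A + μ (bad n h) := by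
    intro n h A
    have e1 : I n ((fun a => h * a) '' A) = ∫⁻ x, rat R n ((fun a => h * a) '' A) (h • x) ∂μ := by
      simp only [I]
      rw [(hmp h).lintegral_comp (rat_meas R hR hact n _)]
    rw [e1]
    have e2 : ∀ x, rat R n ((fun a => h * a) '' A) (h • x) ≤
        rat R n A x + (bad n h).indicator 1 x := by
      intro x
      by_cases hx : R n x (h • x)
      · have hs : ∀ y, R n (h • x) y ↔ R n x y := fun y =>
          ⟨fun hy => htrans n _ _ _ hx hy, fun hy => htrans n _ _ _ (hsymm n _ _ hx) hy⟩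
        unfold rat
        rw [cnt_shift R n A x h hs, cnt_shift_univ R n x h hs]
        exact le_self_add
      · have hb : x ∈ bad n h := hx
        rw [Set.indicator_of_mem hb]
        exact (rat_le_one R n _ _).trans (by simp)
    calc ∫⁻ x, rat R n ((fun a => h * a) '' A) (h • x) ∂μ
        ≤ ∫⁻ x, (rat R n A x + (bad n h).indicator 1 x) ∂μ := lintegral_mono e2
      _ = I n A + μ (bad n h) := by
        rw [lintegral_add_left (rat_meas R hR hact n A)]
        congr 1
        rw [lintegral_indicator_one (hbadm n h)]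
  have hbad0 : ∀ h, Tendsto (fun n => μ (bad n h)) atTop (𝓝 0) := by
    intro h
    have hanti : Antitone fun n => bad n h := by
      refine antitone_nat_of_succ_le fun n => ?_
      intro x hx hR'
      exact hx (hmono n _ _ hR')
    have hinter : μ (⋂ n, bad n h) = 0 := by
      have h1 : ∀ᵐ x ∂μ, x ∉ ⋂ n, bad n h := by
        filter_upwards [hun] with x hx hb
        obtain ⟨n, hn⟩ := hx h
        exact Set.mem_iInter.1 hb n hn
      exact measure_eq_zero_iff_ae_notMem.2 h1
    have := tendsto_measure_iInter_atTop (μ := μ) (s := fun n => bad n h)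
      (fun n => (hbadm n h).nullMeasurableSet) hanti ⟨0, measure_ne_top μ _⟩
    rwa [hinter] at this
  -- real versions
  let J : ℕ → Set G → ℝ := fun n A => (I n A).toReal
  have hIt : ∀ n A, I n A ≠ ⊤ := fun n A => ne_top_of_le_ne_top ENNReal.one_ne_top (hI1 n A)
  have hJ01 : ∀ n A, J n A ∈ Set.Icc (0 : ℝ) 1 := by
    intro n A
    refine ⟨ENNReal.toReal_nonneg, ?_⟩
    have := ENNReal.toReal_mono ENNReal.one_ne_top (hI1 n A)
    simpa using this
  have hlim : ∀ A, ∃ l ∈ Set.Icc (0 : ℝ) 1, Tendsto (fun n => J n A) (hyperfilter ℕ : Filter ℕ)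
      (𝓝 l) := by
    intro A
    have hc : IsCompact (Set.Icc (0 : ℝ) 1) := isCompact_Icc
    have := isCompact_iff_ultrafilter_le_nhds.1 hc ((hyperfilter ℕ).map fun n => J n A) (by
      rw [Ultrafilter.coe_map]
      refine le_principal_iff.2 ?_
      rw [mem_map]
      exact univ_mem' fun n => hJ01 n A)
    obtain ⟨l, hl, hle⟩ := this
    exact ⟨l, hl, hle⟩
  choose m hm01 hm using hlim
  have hle : (hyperfilter ℕ : Filter ℕ) ≤ atTop := by
    rw [← Nat.cofinite_eq_atTop]
    exact hyperfilter_le_cofinite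
  have hmi : ∀ h A, m ((fun a => h * a) '' A) ≤ m A := by
    intro h A
    have hb : Tendsto (fun n => (μ (bad n h)).toReal) (hyperfilter ℕ : Filter ℕ) (𝓝 0) := by
      have := (ENNReal.tendsto_toReal ENNReal.zero_ne_top).comp (hbad0 h)
      rw [ENNReal.toReal_zero] at this
      exact this.mono_left hle
    have hs := (hm A).add hb
    rw [add_zero] at hs
    refine le_of_tendsto_of_tendsto' (hm _) hs fun n => ?_
    simp only [J]
    rw [← ENNReal.toReal_add (hIt n A) (measure_ne_top μ _)]
    exact ENNReal.toReal_mono (ENNReal.add_ne_top.2 ⟨hIt n A, measure_ne_top μ _⟩) (hinv n h A)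
  refine ⟨m, fun A => (hm01 A).1, ?_, ?_, ?_⟩
  · refine tendsto_nhds_unique (hm Set.univ) ?_
    have : (fun n => J n Set.univ) = fun _ => 1 := by
      funext n; simp only [J]; rw [hIu]; simp
    rw [this]; exact tendsto_const_nhds
  · intro A B hAB
    refine tendsto_nhds_unique (hm (A ∪ B)) ?_
    have : (fun n => J n (A ∪ B)) = fun n => J n A + J n B := by
      funext n; simp only [J]
      rw [hIadd n A B hAB, ENNReal.toReal_add (hIt n A) (hIt n B)]
    rw [this]; exact (hm A).add (hm B)
  · intro h A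
    refine le_antisymm (hmi h A) ?_
    have := hmi h⁻¹ ((fun a => h * a) '' A)
    rw [Set.image_image] at this
    simpa using this

end

end Pool.Agent.H84R8
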