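import Mathlib
import Pool.Agent.H84R8.Mean
import Pool.Agent.H84R8.Bern
import Pool.Agent.H84R8.Bump
import Pool.Agent.H84R8.Cone

set_option autoImplicit false

/-! The Bernoulli shift of `F` over its first moved points, inside the space of left orders. -/

namespace Pool.Agent.H84R8

open Pool.Agent.H476R3.ThF MeasureTheory

/-- strict left orders on `G`, as points of `2 ^ (G × G)` -/
structure IsLeftOrder {G : Type} [Group G] (o : G × G → Bool) : Prop where
  irrefl : ∀ a, o (a, a) = false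
  trans : ∀ a b c, o (a, b) = true → o (b, c) = true → o (a, c) = true
  total : ∀ a b, a ≠ b → o (a, b) = true ∨ o (b, a) = true
  left : ∀ f a b, o (a, b) = true → o (f * a, f * b) = true

/-- the space of left orders -/
abbrev LO (G : Type) [Group G] : Type := {o : G × G → Bool // IsLeftOrder o}

/-- the function of the conjugate order: `h <^g k` iff `h g < k g` -/
def conjFun {G : Type} [Group G] (g : G) (o : LO G) : G × G → Bool :=
  fun p => o.1 (p.1 * g, p.2 * g)

theorem conjFun_isLeftOrder {G : Type} [Group G] (g : G) (o : LO G) :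
    IsLeftOrder (conjFun g o) :=
  { irrefl := fun a => o.2.irrefl _
    trans := fun a b c h1 h2 => o.2.trans _ _ _ h1 h2
    total := fun a b h => o.2.total _ _ fun h' => h (mul_right_cancel h')
    left := fun f a b h => by
      have h2 := o.2.left f _ _ h
      simpa only [conjFun, mul_assoc] using h2 }

/-- conjugation of left orders -/
def conj {G : Type} [Group G] (g : G) (o : LO G) : LO G := ⟨conjFun g o, conjFun_isLeftOrder g o⟩

/-- the orbit equivalence relation of the conjugation action -/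
def Elo (G : Type) [Group G] (o o' : LO G) : Prop := ∃ g : G, o' = conj g o

/-- being the first moved point of an element of `F` -/
def IsFirst (x : UI) : Prop := ∃ f : ThompsonF, Up f x ∨ Dn f x

/-- first moved points -/
abbrev PT : Type := {x : UI // IsFirst x}

instance : MulAction ThompsonF PT where
  smul g d := ⟨(g : UI ≃o UI) d.1, by
    obtain ⟨f, hf⟩ := d.2
    refine ⟨g * f * g⁻¹, ?_⟩
    rcases hf with hf | hf
    · exact Or.inl (hf.conj (g : UI ≃o UI))
    · exact Or.inr (hf.conj (g : UI ≃o UI))⟩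
  one_smul d := rfl
  mul_smul g h d := rfl

theorem smul_val (g : ThompsonF) (d : PT) : ((g • d : PT) : UI) = (g : UI ≃o UI) d.1 := rfl

instance : Countable ThompsonF := countable_F

instance : Countable PT := by
  choose c hc using fun d : PT => d.2
  refine Function.Injective.countable (f := c) fun x y hxy => ?_
  have hx := hc x
  rw [hxy] at hx
  exact Subtype.ext (ud_unique hx (hc y))

/-- the Bernoulli action -/
@[reducible] def actX : MulAction ThompsonF (PT → ZMod 2) where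
  smul g ε := fun d => ε (g⁻¹ • d)
  one_smul ε := by
    funext d
    change ε ((1 : ThompsonF)⁻¹ • d) = ε d
    rw [inv_one, one_smul]
  mul_smul g h ε := by
    funext d
    change ε ((g * h)⁻¹ • d) = ε (h⁻¹ • g⁻¹ • d)
    rw [mul_inv_rev, mul_smul]

attribute [local instance] actX

theorem act_apply (g : ThompsonF) (ε : PT → ZMod 2) (d : PT) : (g • ε) d = ε (g⁻¹ • d) := rfl

/-- the positive cone of a sign assignment -/
def P (ε : PT → ZMod 2) (f : UI ≃o UI) : Prop :=
  ∃ x : PT, (Up f x ∧ ε x = 0) ∨ (Dn f x ∧ ε x ≠ 0)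

theorem P_up {ε : PT → ZMod 2} {f : UI ≃o UI} {x : PT} (h : Up f x) : P ε f ↔ ε x = 0 := by
  constructor
  · rintro ⟨y, ⟨h1, h2⟩ | ⟨h1, h2⟩⟩
    · have : y = x := Subtype.ext (ud_unique (Or.inl h1) (Or.inl h))
      rwa [this] at h2
    · have : y = x := Subtype.ext (ud_unique (Or.inr h1) (Or.inl h))
      rw [this] at h1
      exact (ud_excl h h1).elim
  · intro h2; exact ⟨x, Or.inl ⟨h, h2⟩⟩

theorem P_dn {ε : PT → ZMod 2} {f : UI ≃o UI} {x : PT} (h : Dn f x) : P ε f ↔ ε x ≠ 0 := by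
  constructor
  · rintro ⟨y, ⟨h1, h2⟩ | ⟨h1, h2⟩⟩
    · have : y = x := Subtype.ext (ud_unique (Or.inl h1) (Or.inr h))
      rw [this] at h1
      exact (ud_excl h1 h).elim
    · have : y = x := Subtype.ext (ud_unique (Or.inr h1) (Or.inr h))
      rwa [this] at h2
  · intro h2; exact ⟨x, Or.inr ⟨h, h2⟩⟩

theorem P_one (ε : PT → ZMod 2) : ¬ P ε 1 := by
  rintro ⟨y, ⟨⟨_, δ, hδ, h⟩, _⟩ | ⟨⟨_, δ, hδ, h⟩, _⟩⟩
  · exact lt_irrefl _ (h δ hδ le_rfl)
  · exact lt_irrefl _ (h δ hδ le_rfl)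

theorem P_mul {ε : PT → ZMod 2} {f g : UI ≃o UI} (hf : P ε f) (hg : P ε g) : P ε (f * g) := by
  obtain ⟨x, hx⟩ := hf
  obtain ⟨y, hy⟩ := hg
  have fx : ∀ z, z ≤ (x : UI) → f z = z := hx.elim (fun h => h.1.1) (fun h => h.1.1)
  have fy : ∀ z, z ≤ (y : UI) → g z = z := hy.elim (fun h => h.1.1) (fun h => h.1.1)
  rcases lt_trichotomy (x : UI) (y : UI) with hlt | heq | hgt
  · rcases hx with ⟨h1, h2⟩ | ⟨h1, h2⟩
    · exact ⟨x, Or.inl ⟨h1.mul_fix hlt fy, h2⟩⟩
    · exact ⟨x, Or.inr ⟨h1.mul_fix hlt fy, h2⟩⟩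
  · have hxy : x = y := Subtype.ext heq
    subst hxy
    rcases hx with ⟨h1, h2⟩ | ⟨h1, h2⟩
    · rcases hy with ⟨h3, _⟩ | ⟨_, h4⟩
      · exact ⟨x, Or.inl ⟨h1.mul h3, h2⟩⟩
      · exact absurd h2 h4
    · rcases hy with ⟨_, h4⟩ | ⟨h3, _⟩
      · exact absurd h4 h2
      · exact ⟨x, Or.inr ⟨h1.mul h3, h2⟩⟩
  · rcases hy with ⟨h1, h2⟩ | ⟨h1, h2⟩
    · exact ⟨y, Or.inl ⟨h1.fix_mul' hgt fx, h2⟩⟩
    · exact ⟨y, Or.inr ⟨h1.fix_mul' hgt fx, h2⟩⟩

theorem P_total (ε : PT → ZMod 2) {f : UI ≃o UI} (hf : f ∈ ThompsonF) (hne : f ≠ 1) :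
    P ε f ∨ P ε f⁻¹ := by
  obtain ⟨x, hx⟩ := exists_first hf hne
  let x' : PT := ⟨x, ⟨f, hf⟩, hx⟩
  by_cases h0 : ε x' = 0
  · rcases hx with hx | hx
    · exact Or.inl ⟨x', Or.inl ⟨hx, h0⟩⟩
    · exact Or.inr ⟨x', Or.inl ⟨hx.inv, h0⟩⟩
  · rcases hx with hx | hx
    · exact Or.inr ⟨x', Or.inr ⟨hx.inv, h0⟩⟩
    · exact Or.inl ⟨x', Or.inr ⟨hx, h0⟩⟩

theorem P_conj_aux (g : ThompsonF) (ε : PT → ZMod 2) (f : UI ≃o UI) (h : P (g • ε) f) :
    P ε ((g : UI ≃o UI)⁻¹ * f * (g : UI ≃o UI)) := by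
  obtain ⟨x, hx⟩ := h
  refine ⟨g⁻¹ • x, ?_⟩
  rcases hx with ⟨h1, h2⟩ | ⟨h1, h2⟩
  · left
    refine ⟨?_, h2⟩
    have := h1.conj (g : UI ≃o UI)⁻¹
    rwa [inv_inv] at this
  · right
    refine ⟨?_, h2⟩
    have := h1.conj (g : UI ≃o UI)⁻¹
    rwa [inv_inv] at this

theorem P_conj (g : ThompsonF) (ε : PT → ZMod 2) (f : UI ≃o UI) :
    P (g • ε) f ↔ P ε ((g : UI ≃o UI)⁻¹ * f * (g : UI ≃o UI)) := by
  refine ⟨P_conj_aux g ε f, fun h => ?_⟩
  have h' : P (g⁻¹ • g • ε) ((g : UI ≃o UI)⁻¹ * f * (g : UI ≃o UI)) := by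
    rwa [inv_smul_smul]
  have := P_conj_aux g⁻¹ (g • ε) _ h'
  have e : ((g⁻¹ : ThompsonF) : UI ≃o UI)⁻¹ * ((g : UI ≃o UI)⁻¹ * f * (g : UI ≃o UI)) *
      ((g⁻¹ : ThompsonF) : UI ≃o UI) = f := by
    push_cast
    group
  rwa [e] at this

open Classical in
/-- the left order of a sign assignment -/
noncomputable def ord (ε : PT → ZMod 2) : LO ThompsonF :=
  ⟨fun p => decide (P ε ((p.1⁻¹ * p.2 : ThompsonF) : UI ≃o UI)),
    { irrefl := fun a => by
        simp only [inv_mul_cancel, Subgroup.coe_one]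
        exact decide_eq_false (P_one ε)
      trans := fun a b c h1 h2 => by
        have h1' := of_decide_eq_true h1
        have h2' := of_decide_eq_true h2
        apply decide_eq_true
        have := P_mul h1' h2'
        have e : ((a⁻¹ * b : ThompsonF) : UI ≃o UI) * ((b⁻¹ * c : ThompsonF) : UI ≃o UI) =
            ((a⁻¹ * c : ThompsonF) : UI ≃o UI) := by
          push_cast; group
        rwa [e] at this
      total := fun a b h => by
        have hne : ((a⁻¹ * b : ThompsonF) : UI ≃o UI) ≠ 1 := by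
          intro h'
          apply h
          have : a⁻¹ * b = 1 := Subtype.ext h'
          exact (inv_mul_eq_one.1 this)
        rcases P_total ε (a⁻¹ * b).2 hne with h1 | h1
        · exact Or.inl (decide_eq_true h1)
        · right
          apply decide_eq_true
          have e : ((a⁻¹ * b : ThompsonF) : UI ≃o UI)⁻¹ = ((b⁻¹ * a : ThompsonF) : UI ≃o UI) := by
            push_cast; group
          rwa [e] at h1
      left := fun f a b h => by
        have h1 := of_decide_eq_true h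
        apply decide_eq_true
        have e : ((f * a)⁻¹ * (f * b) : ThompsonF) = a⁻¹ * b := by group
        simp only
        rw [e]
        exact h1 }⟩

theorem ord_true (ε : PT → ZMod 2) (a b : ThompsonF) :
    (ord ε).1 (a, b) = true ↔ P ε ((a⁻¹ * b : ThompsonF) : UI ≃o UI) := by
  unfold ord
  simp only [decide_eq_true_eq]

theorem ord_conj (g : ThompsonF) (ε : PT → ZMod 2) : ord (g • ε) = conj g (ord ε) := by
  apply Subtype.ext
  funext ⟨a, b⟩
  rw [Bool.eq_iff_iff]
  have h2 : (conj g (ord ε)).1 (a, b) = (ord ε).1 (a * g, b * g) := rfl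
  rw [h2, ord_true, ord_true, P_conj]
  have e : ((a * g)⁻¹ * (b * g) : ThompsonF) = g⁻¹ * (a⁻¹ * b) * g := by group
  rw [e]
  push_cast
  exact Iff.rfl

theorem zm (a b : ZMod 2) (h : a = 0 ↔ b = 0) : a = b := by
  revert a b; decide

theorem ord_inj : Function.Injective ord := by
  intro ε ε' h
  funext x
  obtain ⟨f, hf⟩ := x.2
  have h1 : P ε (f : UI ≃o UI) ↔ P ε' (f : UI ≃o UI) := by
    have a := ord_true ε 1 f
    have b := ord_true ε' 1 f
    rw [h] at a
    have e : ((1⁻¹ * f : ThompsonF) : UI ≃o UI) = f := by simp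
    rw [e] at a b
    exact a.symm.trans b
  rcases hf with hf | hf
  · rw [P_up hf, P_up hf] at h1
    exact zm _ _ h1
  · rw [P_dn hf, P_dn hf] at h1
    exact zm _ _ (not_iff_not.1 h1)

theorem ord_meas : Measurable ord := by
  refine Measurable.subtype_mk (measurable_pi_lambda _ fun p => ?_)
  refine measurable_to_bool ?_
  have : (fun ε : PT → ZMod 2 => (ord ε).1 p) ⁻¹' {true} =
      ⋃ x : PT, (({_ε | Up ((p.1⁻¹ * p.2 : ThompsonF) : UI ≃o UI) x} ∩ {ε | ε x = 0}) ∪
        ({_ε | Dn ((p.1⁻¹ * p.2 : ThompsonF) : UI ≃o UI) x} ∩ {ε | ε x = 0}ᶜ)) := by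
    ext ε
    simp only [Set.mem_preimage, Set.mem_singleton_iff, Set.mem_iUnion, Set.mem_union,
      Set.mem_inter_iff, Set.mem_ofPred_eq, Set.mem_compl_iff]
    exact ord_true ε p.1 p.2
  refine this ▸ MeasurableSet.iUnion fun x => ?_
  have hm0 : Measurable fun ε : PT → ZMod 2 => ε x := measurable_pi_apply x
  have hm : MeasurableSet {ε : PT → ZMod 2 | ε x = 0} := hm0 (MeasurableSet.singleton (0 : ZMod 2))
  exact ((MeasurableSet.const _).inter hm).union ((MeasurableSet.const _).inter hm.compl)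

theorem bump_up (p w : ℝ) (hp : 0 ≤ p) (hw : 0 < w) (h1 : p + 3 * w ≤ 1) :
    Up (bump p w hp hw h1) ⟨p, hp, by linarith⟩ := by
  refine ⟨fun y hy => ?_, ⟨p + w, by constructor <;> linarith⟩, ?_, fun y hy hy' => ?_⟩
  · apply Subtype.ext
    rw [bump_apply]
    exact uF_1 hw hy
  · change p < p + w
    linarith
  · change (y : ℝ) < bump p w hp hw h1 y
    have a : p < (y : ℝ) := hy
    have b : (y : ℝ) ≤ p + w := hy'
    rw [bump_apply, uF_2 hw a.le b]
    linarith

/-- every nontrivial element moves a first moved point -/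
theorem exists_moved (g : ThompsonF) (hg : g ≠ 1) : ∃ d : PT, g • d ≠ d := by
  have hne : (g : UI ≃o UI) ≠ 1 := fun h => hg (Subtype.ext h)
  obtain ⟨x, hx⟩ := exists_first g.2 hne
  have : ∃ δ, x < δ ∧ ∀ y, x < y → y ≤ δ → (g : UI ≃o UI) y ≠ y := by
    rcases hx with ⟨_, δ, hδ, h⟩ | ⟨_, δ, hδ, h⟩
    · exact ⟨δ, hδ, fun y hy hy' => (h y hy hy').ne'⟩
    · exact ⟨δ, hδ, fun y hy hy' => (h y hy hy').ne⟩
  obtain ⟨δ, hδ, h⟩ := this
  obtain ⟨p, w, hxp, hpδ, hw, h1, dp, dw⟩ := exists_dyadic (a := x) (b := δ) x.2.1 hδ δ.2.2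
  have hp : 0 ≤ p := x.2.1.trans hxp.le
  let b : ThompsonF := ⟨bump p w hp hw h1, bump_isPL p w hp hw h1 dp dw⟩
  refine ⟨⟨⟨p, hp, by linarith⟩, b, Or.inl (bump_up p w hp hw h1)⟩, fun he => ?_⟩
  have he' := congrArg Subtype.val he
  rw [smul_val] at he'
  exact h ⟨p, hp, by linarith⟩ hxp hpδ.le he'

theorem moved_inj (g : ThompsonF) (d : PT) (hd : g • d ≠ d) :
    Function.Injective fun n : ℕ => (MulAction.toPerm g : Equiv.Perm PT)^[n] d := by
  have hv : ∀ n : ℕ, (((MulAction.toPerm g : Equiv.Perm PT)^[n] d : PT) : UI) =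
      (g : UI ≃o UI)^[n] (d : UI) := by
    intro n
    induction n with
    | zero => rfl
    | succ n ih =>
      rw [Function.iterate_succ_apply', Function.iterate_succ_apply', ← ih]
      rfl
  have hd' : (g : UI ≃o UI) d ≠ (d : UI) := fun h => hd (Subtype.ext h)
  have hinj : Function.Injective fun n : ℕ => (g : UI ≃o UI)^[n] (d : UI) := by
    rcases lt_or_gt_of_ne hd' with h | h
    · exact ((g : UI ≃o UI).strictMono.strictAnti_iterate_of_map_lt h).injective
    · exact ((g : UI ≃o UI).strictMono.strictMono_iterate_of_lt_map h).injective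
  intro m n hmn
  apply hinj
  have := congrArg Subtype.val hmn
  simp only [hv] at this
  exact this

theorem act_mp (g : ThompsonF) :
    MeasurePreserving (fun ε : PT → ZMod 2 => g • ε) (bern PT) (bern PT) :=
  bern_mp (MulAction.toPerm g⁻¹ : Equiv.Perm PT)

theorem act_free : ∀ᵐ ε ∂(bern PT), ∀ g : ThompsonF, g ≠ 1 → g • ε ≠ ε := by
  rw [ae_all_iff]
  intro g
  by_cases hg : g = 1
  · exact Filter.Eventually.of_forall fun ε h => absurd hg h
  · obtain ⟨d, hd⟩ := exists_moved g⁻¹ (inv_ne_one.2 hg)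
    have h0 := bern_null (MulAction.toPerm g⁻¹ : Equiv.Perm PT) d (moved_inj g⁻¹ d hd)
    rw [ae_iff]
    refine measure_mono_null (fun ε hε => ?_) h0
    simp only [Set.mem_ofPred_eq, Classical.not_imp, not_not] at hε
    intro e
    exact congrFun hε.2 e

end Pool.Agent.H84R8
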